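import Pool.Agent.T9h20.TF.Spec

/-!
# Project TF (MP_97f157_lc), pieces (B) and (G): the bound in the complex plane and the growth
-/

set_option autoImplicit false

open MeasureTheory Set Filter Topology

namespace Pool.Agent.T9h89.TF

open Pool.Agent.T9h20.TA (mon mx sel isSel_sel)
open Pool.Agent.T9h20.TF

theorem mon_le_mx {t : ℕ} [NeZero t] (c a : Fin t → ℝ) (s : Fin t) (y : ℝ) : |mon c a s y| ≤ mx c a y :=
  (isSel_sel c a y).1 s

theorem mx_nonneg {t : ℕ} [NeZero t] (c a : Fin t → ℝ) (y : ℝ) : 0 ≤ mx c a y := abs_nonneg _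

theorem abs_mon {t : ℕ} (c a : Fin t → ℝ) (s : Fin t) (y : ℝ) :
    |mon c a s y| = |c s| * Real.exp (a s * y) := by
  unfold mon
  rw [abs_mul, abs_of_pos (Real.exp_pos _)]

theorem norm_fac_le {t : ℕ} [NeZero t] (c a : Fin t → ℝ) (z : ℂ) :
    ‖∑ s, (c s : ℂ) * Complex.exp (a s * z)‖ ≤ t * mx c a z.re := by
  refine (norm_sum_le _ _).trans ?_
  have h : ∀ s ∈ (Finset.univ : Finset (Fin t)), ‖(c s : ℂ) * Complex.exp (a s * z)‖ ≤ mx c a z.re := by
    intro s _
    rw [norm_mul, Complex.norm_real, Complex.norm_exp, Real.norm_eq_abs]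
    have h1 : ((a s : ℂ) * z).re = a s * z.re := by simp
    rw [h1, ← abs_mon]
    exact mon_le_mx c a s z.re
  refine (Finset.sum_le_card_nsmul _ _ _ h).trans ?_
  rw [Finset.card_univ, Fintype.card_fin, nsmul_eq_mul]

/-- **B** -/
theorem sBd : SBd := by
  intro k q t m _ b d al c a hm z
  unfold Fc
  refine (norm_sum_le _ _).trans ?_
  rw [Finset.mul_sum]
  apply Finset.sum_le_sum
  intro i _
  have ht : (1 : ℝ) ≤ t := by exact_mod_cast Nat.one_le_iff_ne_zero.2 (NeZero.ne t)
  rw [norm_mul, norm_mul, Complex.norm_real, Complex.norm_exp, Real.norm_eq_abs, norm_prod]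
  have h1 : ((d i : ℂ) * z).re = d i * z.re := by simp
  rw [h1]
  have h2 : ∏ j, ‖(∑ s, (c j s : ℂ) * Complex.exp (a j s * z)) ^ al i j‖ ≤
      (t : ℝ) ^ m * ∏ j, mx (c j) (a j) z.re ^ al i j := by
    calc ∏ j, ‖(∑ s, (c j s : ℂ) * Complex.exp (a j s * z)) ^ al i j‖ ≤
        ∏ j, (t * mx (c j) (a j) z.re) ^ al i j := by
          apply Finset.prod_le_prod
          · intro j _
            exact norm_nonneg _
          · intro j _
            rw [norm_pow]
            exact pow_le_pow_left₀ (norm_nonneg _) (norm_fac_le _ _ z) _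
      _ = (t : ℝ) ^ (∑ j, al i j) * ∏ j, mx (c j) (a j) z.re ^ al i j := by
          simp_rw [mul_pow]
          rw [Finset.prod_mul_distrib, Finset.prod_pow_eq_pow_sum]
      _ ≤ (t : ℝ) ^ m * ∏ j, mx (c j) (a j) z.re ^ al i j := by
          apply mul_le_mul_of_nonneg_right _ (Finset.prod_nonneg fun j _ => pow_nonneg (mx_nonneg _ _ _) _)
          exact pow_le_pow_right₀ ht (hm i)
  calc |b i| * Real.exp (d i * z.re) * ∏ j, ‖(∑ s, (c j s : ℂ) * Complex.exp (a j s * z)) ^ al i j‖ ≤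
      |b i| * Real.exp (d i * z.re) * ((t : ℝ) ^ m * ∏ j, mx (c j) (a j) z.re ^ al i j) :=
        mul_le_mul_of_nonneg_left h2 (by positivity)
    _ = (t : ℝ) ^ m * MM b d al c a i z.re := by
        unfold MM
        ring

theorem mx_growth {t : ℕ} [NeZero t] (c a : Fin t → ℝ) (D : ℝ) (ha : ∀ s, 0 ≤ a s ∧ a s ≤ D) (x y : ℝ) :
    mx c a x ≤ mx c a y * Real.exp (D * |x - y|) := by
  have h1 : mx c a x = |mon c a (sel c a x) x| := rfl
  have h2 := mon_le_mx c a (sel c a x) y
  rw [abs_mon] at h1 h2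
  rw [h1]
  have h3 : Real.exp (a (sel c a x) * x) ≤ Real.exp (a (sel c a x) * y) * Real.exp (D * |x - y|) := by
    rw [← Real.exp_add]
    apply Real.exp_le_exp.2
    obtain ⟨h4, h5⟩ := ha (sel c a x)
    have h6 : a (sel c a x) * (x - y) ≤ a (sel c a x) * |x - y| := mul_le_mul_of_nonneg_left (le_abs_self _) h4
    have h7 : a (sel c a x) * |x - y| ≤ D * |x - y| := mul_le_mul_of_nonneg_right h5 (abs_nonneg _)
    linarith
  calc |c (sel c a x)| * Real.exp (a (sel c a x) * x) ≤
      |c (sel c a x)| * (Real.exp (a (sel c a x) * y) * Real.exp (D * |x - y|)) :=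
        mul_le_mul_of_nonneg_left h3 (abs_nonneg _)
    _ = (|c (sel c a x)| * Real.exp (a (sel c a x) * y)) * Real.exp (D * |x - y|) := by ring
    _ ≤ mx c a y * Real.exp (D * |x - y|) := mul_le_mul_of_nonneg_right h2 (Real.exp_pos _).le

/-- **G** -/
theorem sGr : SGr := by
  intro k q t m _ b d al c a D hm hd ha i x y
  obtain ⟨hd1, hd2⟩ := hd i
  have hD : 0 ≤ D := hd1.trans hd2
  have hDx : 0 ≤ D * |x - y| := mul_nonneg hD (abs_nonneg _)
  have he1 : 1 ≤ Real.exp (D * |x - y|) := Real.one_le_exp hDx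
  have h1 : Real.exp (d i * x) ≤ Real.exp (d i * y) * Real.exp (D * |x - y|) := by
    rw [← Real.exp_add]
    apply Real.exp_le_exp.2
    have h6 : d i * (x - y) ≤ d i * |x - y| := mul_le_mul_of_nonneg_left (le_abs_self _) hd1
    have h7 : d i * |x - y| ≤ D * |x - y| := mul_le_mul_of_nonneg_right hd2 (abs_nonneg _)
    linarith
  have h2 : ∏ j, mx (c j) (a j) x ^ al i j ≤
      (∏ j, mx (c j) (a j) y ^ al i j) * Real.exp (D * |x - y|) ^ m := by
    calc ∏ j, mx (c j) (a j) x ^ al i j ≤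
        ∏ j, (mx (c j) (a j) y * Real.exp (D * |x - y|)) ^ al i j := by
          apply Finset.prod_le_prod
          · intro j _
            exact pow_nonneg (mx_nonneg _ _ _) _
          · intro j _
            exact pow_le_pow_left₀ (mx_nonneg _ _ _) (mx_growth _ _ D (ha j) x y) _
      _ = (∏ j, mx (c j) (a j) y ^ al i j) * Real.exp (D * |x - y|) ^ (∑ j, al i j) := by
          simp_rw [mul_pow]
          rw [Finset.prod_mul_distrib, Finset.prod_pow_eq_pow_sum]
      _ ≤ _ := by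
          apply mul_le_mul_of_nonneg_left _ (Finset.prod_nonneg fun j _ => pow_nonneg (mx_nonneg _ _ _) _)
          exact pow_le_pow_right₀ he1 (hm i)
  have h3 : Real.exp ((m + 1) * D * |x - y|) = Real.exp (D * |x - y|) * Real.exp (D * |x - y|) ^ m := by
    rw [← Real.exp_nat_mul, ← Real.exp_add]
    congr 1
    ring
  rw [h3]
  unfold MM
  calc |b i| * Real.exp (d i * x) * ∏ j, mx (c j) (a j) x ^ al i j ≤
      |b i| * (Real.exp (d i * y) * Real.exp (D * |x - y|)) *
        ((∏ j, mx (c j) (a j) y ^ al i j) * Real.exp (D * |x - y|) ^ m) := by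
        apply mul_le_mul (mul_le_mul_of_nonneg_left h1 (abs_nonneg _)) h2
          (Finset.prod_nonneg fun j _ => pow_nonneg (mx_nonneg _ _ _) _) (by positivity)
    _ = _ := by ring

end Pool.Agent.T9h89.TF
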